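import Pool.Agent.APG.ResB

/-!
# MP_47f3f4_co : `T(P × P) = (p + 3) / 2` for almost all `p`-groups of exponent `p` and class two

`T` (the largest degree of a partial congruence partition) is defined in
`Pool/Agent/Helper19/PCP.lean`, `numIso` (the number of isomorphism classes of groups of order `N`
with a property) in `Pool/Agent/APG/Defs.lean`.

**Proof.** Let `W = P'`, `V = P / P'`, of dimensions `m` and `d` over `F_p`, with the commutator map
`β : V × V → W`. A member `U` of a partial congruence partition of `P × P` has an image `U'` in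
`V × V`, and `K = U ∩ (W × W)` contains the values of `(β, β)` on `U'`. For generic `β` (see the
hand-in `AlmostAll`; the pairs of scalars `(c, c ^ 2)` are now the only elements of
`GL(V) × GL(W)` that fix `β`) these values generate a space of dimension at least `m` if
`dim U' = d`, and if the dimension is `m` this space is `W × 0`, `0 × W` or
`{(w, c ^ 2 w)}` with `c ≠ 0` in `F_p`. As `dim U'_i + dim K_i = d + m` and `K_i ∩ K_j = 0`, there
are at most `2 + (p - 1) / 2` members. Conversely `P × 1`, `1 × P` and the graphs of the
automorphisms inducing `(c, c ^ 2)`, `c = 1, ..., (p - 1) / 2`, form a partial congruence partition.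
The isomorphism classes are the orbits of `GL(V) × GL(W)` on the alternating maps with span `W`.
The exceptional `β` are counted by union bounds and the lemma of Burnside.

Rows by helpers 3, 7, 12, 20, 25, 44, 63, 72, 73, 80 and 96.
-/

set_option autoImplicit false

namespace Pool.Agent.Results.MP_47f3f4_co.AlmostAllExponentP

open Pool.Agent.APG Pool.Agent.Helper19.PCP

/-- The group `P` has exponent `p` (or `1`) and nilpotency class at most two: `x ^ p = 1` for all
`x`, and the commutator subgroup is contained in the centre. -/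
def ExponentPClassTwo (p : ℕ) (P : Type) [Group P] : Prop :=
  (∀ x : P, x ^ p = 1) ∧ commutator P ≤ Subgroup.center P

/-- Let `p` be an odd prime and `n ≥ 40000`. Among the isomorphism classes of groups `P` of order
`p ^ n` of exponent `p` and class at most two, at most the fraction `p ^ (-n)` has
`T(P × P) ≠ (p + 3) / 2`. -/
theorem result (p : ℕ) (hp : p.Prime) (hp2 : p ≠ 2) (n : ℕ) (hn : 40000 ≤ n) :
    p ^ n * numIso (p ^ n) (fun P _ => ExponentPClassTwo p P ∧ T (P × P) ≠ (p + 3) / 2) ≤
      numIso (p ^ n) (fun P _ => ExponentPClassTwo p P) := by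
  have : Fact p.Prime := ⟨hp⟩
  have h1 : numIso (p ^ n) (fun P _ => ExponentPClassTwo p P) =
      numIso (p ^ n) (B.QAll p n) :=
    B.numIso_congr fun g => ⟨fun h => ⟨Nat.card_fin _, h.1, (B.commutator_le_iff _).mp h.2⟩,
      fun h => ⟨h.2.1, (B.commutator_le_iff _).mpr h.2.2⟩⟩
  have h2 : numIso (p ^ n) (fun P _ => ExponentPClassTwo p P ∧ T (P × P) ≠ (p + 3) / 2) =
      numIso (p ^ n) (B.QBad p n) :=
    B.numIso_congr fun g =>
      ⟨fun h => ⟨⟨Nat.card_fin _, h.1.1, (B.commutator_le_iff _).mp h.1.2⟩, h.2⟩,
      fun h => ⟨⟨h.1.2.1, (B.commutator_le_iff _).mpr h.1.2.2⟩, h.2⟩⟩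
  rw [h1, h2]
  exact B.main p hp2 n hn

end Pool.Agent.Results.MP_47f3f4_co.AlmostAllExponentP
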