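import Pool.Agent.Helper19.PCPCamina

/-!
# MP_47f3f4_co : `T(P × P) ≤ |Z(P)| + 1` when `(P, Z(P))` is a Camina pair
-/

namespace Pool.Agent.Results.MP_47f3f4_co.CaminaBound

open Pool.Agent.Helper19.PCP

/-- Let `P` be a finite `p`-group, `P ≠ 1`, such that `g` is conjugate to `g z` for all `g` outside
the centre `Z(P)` and all `z ∈ Z(P)`. Then `T(P × P) ≤ |Z(P)| + 1`. -/
theorem result (p : ℕ) [Fact p.Prime] (P : Type) [Group P] [Finite P] [Nontrivial P]
    (hP : IsPGroup p P)
    (hcam : ∀ g, g ∉ Subgroup.center P → ∀ z ∈ Subgroup.center P, IsConj g (g * z)) :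
    T (P × P) ≤ Nat.card (Subgroup.center P) + 1 := by
  have : Nontrivial (Subgroup.center P) := hP.center_nontrivial
  exact camina_bound hcam

end Pool.Agent.Results.MP_47f3f4_co.CaminaBound
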