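import Pool.Agent.Helper19.PCPHeis

/-!
# MP_47f3f4_co : the exact value of `T(P × P)` for the Heisenberg groups over finite fields

For every finite field `F` and every `m`, `T(H_m(F) × H_m(F)) = |F| + 1`.
-/

namespace Pool.Agent.Results.MP_47f3f4_co.HeisenbergExact

open Pool.Agent.Helper19.PCP

/-- For every finite field `F` and every `m ≥ 1`, the Heisenberg group `H_m(F)` (of order
`|F| ^ (2 m + 1)`, non-abelian) satisfies `T(H_m(F) × H_m(F)) = |F| + 1`. -/
theorem result (F : Type) [Field F] [Finite F] (m : ℕ) (_hm : 1 ≤ m) :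
    T (Heis F m × Heis F m) = Nat.card F + 1 :=
  Heis.exact_value

end Pool.Agent.Results.MP_47f3f4_co.HeisenbergExact
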