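import Pool.Agent.Helper60.PCP.SuzMain

/-!
# MP_47f3f4_co : the exact value of `T(P × P)` for the Suzuki 2-groups

Let `P` be a finite group of exponent dividing four with a cyclic group of automorphisms that
permutes the involutions of `P` transitively. Then `T(P × P) = q + 1`, where `q - 1` is the number
of involutions of `P`.
-/

namespace Pool.Agent.Results.MP_47f3f4_co.SuzukiExact

open Pool.Agent.Helper19.PCP

/-- Let `P` be a finite group, `P ≠ 1`, with `x ^ 4 = 1` for all `x`, and `ξ` an automorphism of
`P` whose powers permute the involutions of `P` transitively. Then `T(P × P)` is the number of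
solutions of `x ^ 2 = 1` in `P` plus one. -/
theorem result (P : Type) [Group P] [Finite P] [Nontrivial P] (h4 : ∀ x : P, x ^ 4 = 1)
    (ξ : MulAut P)
    (hξ : ∀ x y : P, x ^ 2 = 1 → x ≠ 1 → y ^ 2 = 1 → y ≠ 1 → ∃ k : ℤ, (ξ ^ k) x = y) :
    T (P × P) = Nat.card {x : P // x ^ 2 = 1} + 1 :=
  Pool.Agent.Helper60.PCP.suzuki h4 ξ hξ

end Pool.Agent.Results.MP_47f3f4_co.SuzukiExact
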