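import Pool.Agent.Helper19.PCPBound

/-!
# MP_47f3f4_co : a universal upper bound for `T(P × P)`, `P` a non-abelian `p`-group

`T(P × P) ≤ √|P : Z(P)| + 1 + k (k - 1) / (p - 1)` where `k` is the number of conjugacy classes
of `P` contained in the derived subgroup `P'` (so `k ≤ |P'|`).
-/

namespace Pool.Agent.Results.MP_47f3f4_co.UniversalBound

open Pool.Agent.Helper19.PCP

/-- For every finite non-abelian `p`-group `P`,
`T(P × P) ≤ ⌊√|P : Z(P)|⌋ + 1 + k (k - 1) / (p - 1)`, with `k` the number of conjugacy classes of
`P` contained in `P'`. -/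
theorem result (p : ℕ) [Fact p.Prime] (P : Type) [Group P] [Finite P] (hP : IsPGroup p P)
    (hna : ∃ a b : P, a * b ≠ b * a) :
    T (P × P) ≤ Nat.sqrt (Subgroup.center P).index + 1 +
      Nat.card {c : ConjClasses P // c.carrier ⊆ (commutator P : Set P)} *
        (Nat.card {c : ConjClasses P // c.carrier ⊆ (commutator P : Set P)} - 1) / (p - 1) :=
  universal_bound hP hna

end Pool.Agent.Results.MP_47f3f4_co.UniversalBound
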