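import Pool.Agent.Helper19.PCPVanish

/-!
# MP_47f3f4_co : an upper bound for `T(P × P)` from zeros of characters

If `z ≠ 1` is central in the `p`-group `P` and `N ≤ P` is a subgroup such that every `g ∉ N` is
conjugate to `g z`, then `T(P × P) ≤ (k ^ 2 - 1) / (p - 1)`, where `k` is the number of conjugacy
classes of `P` containing an element `x ∈ N` with `x ^ p = 1`.
-/

namespace Pool.Agent.Results.MP_47f3f4_co.VanishingBound

open Pool.Agent.Helper19.PCP

/-- Let `P` be a finite `p`-group, `1 ≠ z ∈ Z(P)` and `N ≤ P` a subgroup such that every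
`g ∈ P \ N` is conjugate to `g z`. Let `k` be the number of conjugacy classes of `P` which contain
an element `x ∈ N` with `x ^ p = 1`. Then `T(P × P) ≤ (k ^ 2 - 1) / (p - 1)`. -/
theorem result (p : ℕ) [Fact p.Prime] (P : Type) [Group P] [Finite P] (hP : IsPGroup p P)
    (z : P) (hz : z ∈ Subgroup.center P) (hz1 : z ≠ 1) (N : Subgroup P)
    (hN : ∀ g, g ∉ N → IsConj g (g * z)) :
    T (P × P) ≤ ((Nat.card {c : ConjClasses P // ∃ x ∈ N, x ^ p = 1 ∧ ConjClasses.mk x = c}) ^ 2
      - 1) / (p - 1) :=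
  vanishing_bound hP hz hz1 N hN

end Pool.Agent.Results.MP_47f3f4_co.VanishingBound
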